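import Pool.Agent.Helper72_HAM.Exi

/-!
# TWO: the map of a closed word is connected and 2-connected (MP_f63292_lc)
-/

namespace Pool.Agent.HAM.H72

open Equiv

section

variable {m : ℕ} {vs : List (List ℕ × List ℕ)}

theorem exists_idx (h : Static m vs) (z : ℕ × Bool) (hz : z.1 < m) :
    ∃ t, ∃ ht : t < vs.length, z ∈ cl vs[t] := by
  have h1 : z ∈ vs.flatMap cl := (mem_fl h z).2 hz
  rw [List.mem_flatMap] at h1
  obtain ⟨v, hv, hz⟩ := h1
  obtain ⟨t, ht, rfl⟩ := List.mem_iff_getElem.1 hv
  exact ⟨t, ht, hz⟩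

theorem idx_unique (h : Static m vs) {z : ℕ × Bool} {i j : ℕ} (hi : i < vs.length)
    (hj : j < vs.length) (h1 : z ∈ cl vs[i]) (h2 : z ∈ cl vs[j]) : i = j := by
  have hn := nodup_fl h
  rw [List.nodup_flatMap] at hn
  have hp := List.pairwise_iff_getElem.1 hn.2
  rcases lt_trichotomy i j with hij | hij | hij
  · exact absurd h2 (hp i j hi hj hij h1)
  · exact hij
  · exact absurd h1 (hp j i hj hi hij h2)

theorem nodup_cl (h : Static m vs) {i : ℕ} (hi : i < vs.length) : (cl vs[i]).Nodup := by
  have hn := nodup_fl h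
  rw [List.nodup_flatMap] at hn
  exact hn.1 _ (List.getElem_mem hi)

/-- the number of the vertex of a dart -/
noncomputable def idx (h : Static m vs) (d : Dart (Fin m)) : ℕ :=
  (exists_idx h (nm d) d.1.2).choose

theorem idx_lt (h : Static m vs) (d : Dart (Fin m)) : idx h d < vs.length :=
  (exists_idx h (nm d) d.1.2).choose_spec.choose

theorem idx_mem (h : Static m vs) (d : Dart (Fin m)) : nm d ∈ cl (vs[idx h d]'(idx_lt h d)) :=
  (exists_idx h (nm d) d.1.2).choose_spec.choose_spec

theorem idx_eq (h : Static m vs) {d : Dart (Fin m)} {i : ℕ} (hi : i < vs.length)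
    (hd : nm d ∈ cl vs[i]) : idx h d = i :=
  idx_unique h (idx_lt h d) hi (idx_mem h d) hd

theorem getD_eq (i : ℕ) (hi : i < vs.length) : vs.getD i ([], []) = vs[i] := by
  rw [List.getD_eq_getElem?_getD, List.getElem?_eq_getElem hi]
  rfl

/-- the lists at the vertices contain only edges of the map -/
theorem lt_of_mem_cl (h : Static m vs) {i : ℕ} (hi : i < vs.length) {z : ℕ × Bool}
    (hz : z ∈ cl vs[i]) : z.1 < m :=
  (mem_fl h z).1 (List.mem_flatMap.2 ⟨_, List.getElem_mem hi, hz⟩)

theorem out_spec (h : Static m vs) {i : ℕ} (hi : i < vs.length) {e : ℕ} (he : e ∈ vs[i].2) :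
    ∃ d : Dart (Fin m), d.1.val = e ∧ d.2 = false ∧ idx h d = i := by
  have hz : ((e, false) : ℕ × Bool) ∈ cl vs[i] := (mem_cl _ _).2 (Or.inl ⟨rfl, he⟩)
  refine ⟨(⟨e, lt_of_mem_cl h hi hz⟩, false), rfl, rfl, idx_eq h hi hz⟩

theorem in_spec (h : Static m vs) {i : ℕ} (hi : i < vs.length) {e : ℕ} (he : e ∈ vs[i].1) :
    ∃ d : Dart (Fin m), d.1.val = e ∧ d.2 = true ∧ idx h d = i := by
  have hz : ((e, true) : ℕ × Bool) ∈ cl vs[i] := (mem_cl _ _).2 (Or.inr ⟨rfl, he⟩)
  refine ⟨(⟨e, lt_of_mem_cl h hi hz⟩, true), rfl, rfl, idx_eq h hi hz⟩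

theorem opp_opp {E : Type} (d : Dart E) : opp (opp d) = d := by
  unfold opp
  simp

/-- the tail of an edge comes before its head -/
theorem idx_opp_lt (h : Static m vs) (d : Dart (Fin m)) (hd : d.2 = true) :
    idx h (opp d) < idx h d := by
  have h1 := idx_mem h d
  rw [mem_cl] at h1
  have h2 : d.1.val ∈ (vs[idx h d]'(idx_lt h d)).1 := by
    rcases h1 with ⟨h1, _⟩ | ⟨_, h1⟩
    · exact absurd (h1.symm.trans hd) Bool.false_ne_true
    · exact h1
  obtain ⟨t', ht', he⟩ := h.lt (idx h d) d.1.val (by rw [getD_eq _ (idx_lt h d)]; exact h2)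
  have ht'' : t' < vs.length := lt_trans ht' (idx_lt h d)
  rw [getD_eq _ ht''] at he
  have h3 : idx h (opp d) = t' := by
    refine idx_eq h ht'' ((mem_cl _ _).2 (Or.inl ⟨?_, he⟩))
    show (!d.2) = false
    rw [hd]
    rfl
  rw [h3]
  exact ht'

theorem idx_opp_ne (h : Static m vs) (d : Dart (Fin m)) : idx h d ≠ idx h (opp d) := by
  rcases hd : d.2 with _ | _
  · have h1 := idx_opp_lt h (opp d) (by show (!d.2) = true; rw [hd]; rfl)
    rw [opp_opp] at h1
    exact ne_of_lt h1
  · exact (ne_of_lt (idx_opp_lt h d hd)).symm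

variable {σ : Perm (Dart (Fin m))}

theorem idx_sigma (h : Static m vs) (hσ : Realises m vs σ) (x : Dart (Fin m)) :
    idx h (σ x) = idx h x := by
  obtain ⟨v, hv, hp⟩ := (hσ x (σ x)).1 rfl
  obtain ⟨i, hi, rfl⟩ := List.mem_iff_getElem.1 hv
  have h1 := List.of_mem_zip hp
  rw [List.mem_rotate] at h1
  rw [idx_eq h hi h1.1, idx_eq h hi h1.2]

theorem idx_zpow (h : Static m vs) (hσ : Realises m vs σ) (k : ℤ) (x : Dart (Fin m)) :
    idx h ((σ ^ k) x) = idx h x := by
  induction k using Int.induction_on with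
  | zero => simp
  | succ n ih =>
    rw [add_comm, zpow_one_add, Perm.mul_apply, idx_sigma h hσ, ih]
  | pred n ih =>
    have h1 : σ ((σ ^ (-(n : ℤ) - 1)) x) = (σ ^ (-(n : ℤ))) x := by
      rw [← Perm.mul_apply, ← zpow_one_add]
      congr 2
      ring
    rw [← idx_sigma h hσ, h1, ih]

theorem idx_sameCycle (h : Static m vs) (hσ : Realises m vs σ) {x y : Dart (Fin m)}
    (hxy : σ.SameCycle x y) : idx h x = idx h y := by
  obtain ⟨k, rfl⟩ := hxy
  exact (idx_zpow h hσ k x).symm

theorem sameCycle_aux (hσ : Realises m vs σ) {t : ℕ} (ht : t < vs.length)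
    (hm : ∀ z ∈ cl vs[t], z.1 < m) :
    ∀ (i : ℕ) (hi : i < (cl vs[t]).length) (h0 : 0 < (cl vs[t]).length) (x y : Dart (Fin m)),
      nm x = (cl vs[t])[0] → nm y = (cl vs[t])[i] → σ.SameCycle x y := by
  intro i
  induction i with
  | zero =>
    intro hi h0 x y hx hy
    have : x = y := nm_injective (hx.trans hy.symm)
    rw [this]
  | succ i ih =>
    intro hi h0 x y hx hy
    have hi' : i < (cl vs[t]).length := by omega
    set z := (cl vs[t])[i] with hz
    have hzm : z.1 < m := hm _ (List.getElem_mem hi')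
    have h1 := ih hi' h0 x (⟨z.1, hzm⟩, z.2) hx rfl
    refine h1.trans ⟨1, ?_⟩
    rw [zpow_one, hσ]
    refine ⟨_, List.getElem_mem ht, ?_⟩
    have hlen : i < (cpairs (cl vs[t])).length := by
      unfold cpairs
      rw [List.length_zip, List.length_rotate, min_self]
      exact hi'
    have h2 : (cpairs (cl vs[t]))[i] = (z, nm y) := by
      unfold cpairs
      rw [List.getElem_zip, List.getElem_rotate, hy]
      congr 2
      exact Nat.mod_eq_of_lt hi
    have h3 := List.getElem_mem hlen
    rw [h2] at h3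
    exact h3

theorem sameCycle_of_idx (h : Static m vs) (hσ : Realises m vs σ) {x y : Dart (Fin m)}
    (hxy : idx h x = idx h y) : σ.SameCycle x y := by
  have hx := idx_mem h x
  have hy := idx_mem h y
  have ht := idx_lt h x
  have hy' : nm y ∈ cl (vs[idx h x]'ht) := by
    have : (vs[idx h x]'ht) = (vs[idx h y]'(idx_lt h y)) := by
      congr 1
    rw [this]
    exact hy
  have hm : ∀ z ∈ cl (vs[idx h x]'ht), z.1 < m := fun z hz => lt_of_mem_cl h ht hz
  obtain ⟨i, hi, hi2⟩ := List.mem_iff_getElem.1 hx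
  obtain ⟨j, hj, hj2⟩ := List.mem_iff_getElem.1 hy'
  have h0 : 0 < (cl (vs[idx h x]'ht)).length := by omega
  set z := (cl (vs[idx h x]'ht))[0] with hz
  have hzm : z.1 < m := hm _ (List.getElem_mem h0)
  have h1 := sameCycle_aux hσ ht hm i hi h0 (⟨z.1, hzm⟩, z.2) x rfl hi2.symm
  have h2 := sameCycle_aux hσ ht hm j hj h0 (⟨z.1, hzm⟩, z.2) y rfl hj2.symm
  exact h1.symm.trans h2

theorem length_cl {I : Type} (v : List I × List I) : (cl v).length = v.2.length + v.1.length := by
  rw [(clPerm v).length_eq]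
  simp

theorem two_le_length (h : Static m vs) {t : ℕ} (ht : t < vs.length) : 2 ≤ (cl vs[t]).length := by
  rw [length_cl]
  have h3 := h.two
  rcases Nat.eq_zero_or_pos t with h0 | h0
  · subst h0
    have h1 := h.first
    rw [List.getElem?_eq_getElem ht] at h1
    rw [Option.some.inj h1]
    simp
  · by_cases hl : t + 1 < vs.length
    · have h1 := h.inner t h0 hl
      rw [getD_eq _ ht] at h1
      have h4 := List.length_pos_iff.2 h1.1
      have h5 := List.length_pos_iff.2 h1.2
      omega
    · have hl' : vs.length - 1 = t := by omega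
      have h1 := h.last
      rw [hl', getD_eq _ ht] at h1
      have := h1.1
      omega

theorem sigma_ne (h : Static m vs) (hσ : Realises m vs σ) (d : Dart (Fin m)) : σ d ≠ d := by
  intro hd
  obtain ⟨v, hv, hp⟩ := (hσ d d).1 hd
  obtain ⟨t, ht, rfl⟩ := List.mem_iff_getElem.1 hv
  have h2 := two_le_length h ht
  have hn := nodup_cl h ht
  obtain ⟨i, hi, he⟩ := List.mem_iff_getElem.1 hp
  unfold cpairs at hi he
  rw [List.getElem_zip, List.getElem_rotate] at he
  have h3 := Prod.mk.inj he
  have hi' : i < (cl vs[t]).length := by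
    rw [List.length_zip, List.length_rotate, min_self] at hi
    exact hi
  have h4 : i = (i + 1) % (cl vs[t]).length :=
    (List.Nodup.getElem_inj_iff hn).1 (h3.1.trans h3.2.symm)
  by_cases h5 : i + 1 < (cl vs[t]).length
  · rw [Nat.mod_eq_of_lt h5] at h4
    omega
  · have h6 : i + 1 = (cl vs[t]).length := by omega
    rw [h6, Nat.mod_self] at h4
    omega

/-- adjacency without the vertex `k` -/
def Rk (h : Static m vs) (σ : Perm (Dart (Fin m))) (k : ℕ) (a b : Dart (Fin m)) : Prop :=
  idx h a ≠ k ∧ idx h b ≠ k ∧ (b = σ a ∨ b = opp a)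

theorem conn_zpow (h : Static m vs) (hσ : Realises m vs σ) {k : ℕ} {x : Dart (Fin m)}
    (hx : idx h x ≠ k) (j : ℤ) : Relation.EqvGen (Rk h σ k) x ((σ ^ j) x) := by
  induction j using Int.induction_on with
  | zero => exact Relation.EqvGen.refl _
  | succ n ih =>
    refine Relation.EqvGen.trans _ _ _ ih (Relation.EqvGen.rel _ _ ⟨?_, ?_, Or.inl ?_⟩)
    · rw [idx_zpow h hσ]
      exact hx
    · rw [idx_zpow h hσ]
      exact hx
    · rw [← Perm.mul_apply, ← zpow_one_add, add_comm]
  | pred n ih =>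
    refine Relation.EqvGen.trans _ _ _ ih (Relation.EqvGen.symm _ _
      (Relation.EqvGen.rel _ _ ⟨?_, ?_, Or.inl ?_⟩))
    · rw [idx_zpow h hσ]
      exact hx
    · rw [idx_zpow h hσ]
      exact hx
    · rw [← Perm.mul_apply, ← zpow_one_add]
      congr 2
      ring

theorem conn_idx (h : Static m vs) (hσ : Realises m vs σ) {k : ℕ} {x y : Dart (Fin m)}
    (hx : idx h x ≠ k) (hxy : idx h x = idx h y) : Relation.EqvGen (Rk h σ k) x y := by
  obtain ⟨j, rfl⟩ := sameCycle_of_idx h hσ hxy
  exact conn_zpow h hσ hx j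

theorem conn_opp (h : Static m vs) {k : ℕ} {x : Dart (Fin m)}
    (hx : idx h x ≠ k) (hx' : idx h (opp x) ≠ k) : Relation.EqvGen (Rk h σ k) x (opp x) :=
  Relation.EqvGen.rel _ _ ⟨hx, hx', Or.inr rfl⟩

/-- downward connection -/
theorem down (h : Static m vs) (hσ : Realises m vs σ) {k : ℕ} (o : Dart (Fin m))
    (ho : idx h o = 0) : ∀ (s : ℕ), s < k → ∀ x, idx h x = s →
      Relation.EqvGen (Rk h σ k) x o := by
  intro s
  induction s using Nat.strong_induction_on with
  | _ s ih =>
    intro hs x hx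
    rcases Nat.eq_zero_or_pos s with h0 | h0
    · exact conn_idx h hσ (by omega) (by rw [hx, ho, h0])
    · have hsl : s < vs.length := hx ▸ idx_lt h x
      have hne : (vs[s]).1 ≠ [] := by
        by_cases hl : s + 1 < vs.length
        · have h1 := (h.inner s h0 hl).1
          rw [getD_eq _ hsl] at h1
          exact h1
        · have hl' : vs.length - 1 = s := by omega
          have h1 := h.last.1
          rw [hl', getD_eq _ hsl] at h1
          intro h2
          rw [h2] at h1
          simp at h1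
      obtain ⟨e, he⟩ := List.exists_mem_of_ne_nil _ hne
      obtain ⟨d, _, hd2, hd3⟩ := in_spec h hsl he
      have h1 := idx_opp_lt h d hd2
      rw [hd3] at h1
      refine Relation.EqvGen.trans _ _ _ (conn_idx h hσ (by omega) (hx.trans hd3.symm)) ?_
      refine Relation.EqvGen.trans _ _ _ (conn_opp h (by omega) (by omega)) ?_
      exact ih _ h1 (by omega) _ rfl

/-- upward connection -/
theorem up (h : Static m vs) (hσ : Realises m vs σ) {k : ℕ} (q : Dart (Fin m))
    (hq : idx h q + 1 = vs.length) : ∀ (r : ℕ), ∀ x, k < idx h x → idx h x + 1 + r = vs.length →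
      Relation.EqvGen (Rk h σ k) x q := by
  intro r
  induction r using Nat.strong_induction_on with
  | _ r ih =>
    intro x hx hr
    rcases Nat.eq_zero_or_pos r with h0 | h0
    · exact conn_idx h hσ (by omega) (by omega)
    · have hsl := idx_lt h x
      have hne : (vs[idx h x]'hsl).2 ≠ [] := by
        have h1 := (h.inner (idx h x) (by omega) (by omega)).2
        rw [getD_eq _ hsl] at h1
        exact h1
      obtain ⟨e, he⟩ := List.exists_mem_of_ne_nil _ hne
      obtain ⟨d, _, hd2, hd3⟩ := out_spec h hsl he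
      have h1 := idx_opp_lt h (opp d) (by show (!d.2) = true; rw [hd2]; rfl)
      rw [opp_opp, hd3] at h1
      have h2 := idx_lt h (opp d)
      refine Relation.EqvGen.trans _ _ _ (conn_idx h hσ (by omega) hd3.symm) ?_
      refine Relation.EqvGen.trans _ _ _ (conn_opp h (by omega) (by omega)) ?_
      exact ih (vs.length - (idx h (opp d) + 1)) (by omega) (opp d) (by omega) (by omega)

theorem exists_zero (h : Static m vs) : ∃ o : Dart (Fin m), idx h o = 0 := by
  have h3 := h.two
  have h0 : 0 < vs.length := by omega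
  have h1 := h.first
  rw [List.getElem?_eq_getElem h0] at h1
  have h2 : 0 ∈ (vs[0]).2 := by
    rw [Option.some.inj h1]
    simp
  obtain ⟨d, _, _, hd⟩ := out_spec h h0 h2
  exact ⟨d, hd⟩

theorem exists_last (h : Static m vs) : ∃ q : Dart (Fin m), idx h q + 1 = vs.length := by
  have h3 := h.two
  have hl : vs.length - 1 < vs.length := by omega
  have h1 := h.last.1
  rw [getD_eq _ hl] at h1
  have hne : (vs[vs.length - 1]).1 ≠ [] := by
    intro h2
    rw [h2] at h1
    simp at h1
  obtain ⟨e, he⟩ := List.exists_mem_of_ne_nil _ hne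
  obtain ⟨d, _, _, hd⟩ := in_spec h hl he
  exact ⟨d, by omega⟩

/-- without any vertex (or with no vertex deleted) the map is connected -/
theorem conn_all (h : Static m vs) (hσ : Realises m vs σ) (k : ℕ) (x y : Dart (Fin m))
    (hx : idx h x ≠ k) (hy : idx h y ≠ k) : Relation.EqvGen (Rk h σ k) x y := by
  obtain ⟨o, ho⟩ := exists_zero h
  obtain ⟨q, hq⟩ := exists_last h
  have hxl := idx_lt h x
  have hyl := idx_lt h y
  have hdown : ∀ z, idx h z < k → Relation.EqvGen (Rk h σ k) z o :=
    fun z hz => down h hσ o ho _ hz z rfl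
  have hup : ∀ z, k < idx h z → Relation.EqvGen (Rk h σ k) z q := by
    intro z hz
    have := idx_lt h z
    exact up h hσ q hq (vs.length - (idx h z + 1)) z hz (by omega)
  have hoq : ∀ a b, idx h a < k → k < idx h b → Relation.EqvGen (Rk h σ k) o q := by
    intro a b ha hb
    have hbl := idx_lt h b
    obtain ⟨e, t₁, t₂, h1, h2, h3, h4⟩ := h.jump k (by omega) (by omega)
    have hl1 : t₁ < vs.length := by omega
    have hl2 : t₂ < vs.length := by
      by_contra hcon
      rw [List.getD_eq_getElem?_getD, List.getElem?_eq_none (by omega)] at h4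
      simp at h4
    rw [getD_eq _ hl1] at h3
    rw [getD_eq _ hl2] at h4
    obtain ⟨d, hd1, hd2, hd3⟩ := out_spec h hl1 h3
    obtain ⟨d', hd1', hd2', hd3'⟩ := in_spec h hl2 h4
    have hdd : opp d = d' := by
      refine Prod.ext (Fin.ext (hd1.trans hd1'.symm)) ?_
      show (!d.2) = d'.2
      rw [hd2, hd2']
      rfl
    have h5 : Relation.EqvGen (Rk h σ k) d (opp d) :=
      conn_opp h (by omega) (by rw [hdd]; omega)
    refine Relation.EqvGen.trans _ _ _ (Relation.EqvGen.symm _ _ (hdown d (by omega))) ?_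
    refine Relation.EqvGen.trans _ _ _ h5 ?_
    exact hup _ (by rw [hdd]; omega)
  rcases lt_or_gt_of_ne hx with hx' | hx' <;> rcases lt_or_gt_of_ne hy with hy' | hy'
  · exact Relation.EqvGen.trans _ _ _ (hdown x hx') (Relation.EqvGen.symm _ _ (hdown y hy'))
  · exact Relation.EqvGen.trans _ _ _ (hdown x hx') (Relation.EqvGen.trans _ _ _ (hoq x y hx' hy')
      (Relation.EqvGen.symm _ _ (hup y hy')))
  · exact Relation.EqvGen.symm _ _ (Relation.EqvGen.trans _ _ _ (hdown y hy')
      (Relation.EqvGen.trans _ _ _ (hoq y x hy' hx') (Relation.EqvGen.symm _ _ (hup x hx'))))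
  · exact Relation.EqvGen.trans _ _ _ (hup x hx') (Relation.EqvGen.symm _ _ (hup y hy'))

end

theorem eqv_mono {α : Type} {r p : α → α → Prop} (hrp : ∀ a b, r a b → p a b) {a b : α}
    (hab : Relation.EqvGen r a b) : Relation.EqvGen p a b := by
  induction hab with
  | rel x y hxy => exact Relation.EqvGen.rel _ _ (hrp _ _ hxy)
  | refl x => exact Relation.EqvGen.refl _
  | symm x y _ ih => exact Relation.EqvGen.symm _ _ ih
  | trans x y z _ _ ih1 ih2 => exact Relation.EqvGen.trans _ _ _ ih1 ih2

theorem flip_univ {E : Type} [DecidableEq E] [Fintype E] (x : Dart E) :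
    flip Finset.univ x = opp x := by
  show (x.1, if x.1 ∈ (Finset.univ : Finset E) then !x.2 else x.2) = (x.1, !x.2)
  rw [if_pos (Finset.mem_univ _)]

theorem two : TwoStmt := by
  intro m vs σ h hσ
  refine ⟨⟨sigma_ne h hσ, ?_, ?_⟩, ?_⟩
  · intro d hd
    exact idx_opp_ne h d (idx_sameCycle h hσ hd)
  · intro d₀ x y hx hy
    have hx' : idx h x ≠ idx h d₀ := fun hc => hx (sameCycle_of_idx h hσ hc.symm)
    have hy' : idx h y ≠ idx h d₀ := fun hc => hy (sameCycle_of_idx h hσ hc.symm)
    refine eqv_mono ?_ (conn_all h hσ (idx h d₀) x y hx' hy')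
    rintro a b ⟨ha, hb, hab⟩
    exact ⟨fun hc => ha (idx_sameCycle h hσ hc).symm, fun hc => hb (idx_sameCycle h hσ hc).symm,
      hab⟩
  · unfold comp
    rw [Nat.card_eq_one_iff_unique]
    constructor
    · constructor
      intro a b
      induction a using Quotient.inductionOn with
      | _ a =>
        induction b using Quotient.inductionOn with
        | _ b =>
          refine Quotient.sound ?_
          have ha := idx_lt h a
          have hb := idx_lt h b
          refine eqv_mono ?_ (conn_all h hσ vs.length a b (by omega) (by omega))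
          rintro a b ⟨_, _, hab | hab⟩
          · exact Or.inl hab
          · right
            rw [flip_univ]
            exact hab
    · obtain ⟨o, _⟩ := exists_zero h
      exact ⟨Quotient.mk _ o⟩

end Pool.Agent.HAM.H72
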