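import Pool.Agent.Helper43_HAM.Stmts

/-!
# EXI: the map of a closed word exists (MP_f63292_lc)
-/

namespace Pool.Agent.HAM.H72

open Equiv

theorem clPerm {I : Type} : ∀ v : List I × List I,
    (cl v).Perm (v.2.map (fun e => (e, false)) ++ v.1.map (fun e => (e, true)))
  | ([], outs) => by simp [cl]
  | (e :: ins, outs) => by
    simp only [cl, List.map_cons]
    refine List.Perm.trans ?_ (List.perm_middle).symm
    refine List.Perm.cons _ (List.Perm.append_left _ ?_)
    exact (List.reverse_perm ins).map _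

theorem mem_cl {I : Type} (v : List I × List I) (z : I × Bool) :
    z ∈ cl v ↔ (z.2 = false ∧ z.1 ∈ v.2) ∨ (z.2 = true ∧ z.1 ∈ v.1) := by
  rw [(clPerm v).mem_iff]
  rcases z with ⟨e, b⟩
  cases b <;> simp

theorem flPerm {I : Type} : ∀ vs : List (List I × List I),
    (vs.flatMap cl).Perm ((vs.flatMap Prod.snd).map (fun e => (e, false)) ++
      (vs.flatMap Prod.fst).map (fun e => (e, true)))
  | [] => by simp
  | v :: vs => by
    simp only [List.flatMap_cons, List.map_append]
    refine ((clPerm v).append (flPerm vs)).trans ?_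
    rw [List.append_assoc, List.append_assoc]
    refine List.Perm.append_left _ ?_
    rw [← List.append_assoc, ← List.append_assoc]
    exact List.Perm.append_right _ List.perm_append_comm

variable {m : ℕ} {vs : List (List ℕ × List ℕ)}

theorem flPerm' (h : Static m vs) :
    (vs.flatMap cl).Perm ((List.range m).map (fun e => (e, false)) ++
      (List.range m).map (fun e => (e, true))) := by
  refine (flPerm vs).trans ?_
  rw [h.outs]
  exact List.Perm.append_left _ (h.ins.map _)

theorem nodup_fl (h : Static m vs) : (vs.flatMap cl).Nodup := by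
  rw [(flPerm' h).nodup_iff, List.nodup_append]
  refine ⟨?_, ?_, ?_⟩
  · exact List.nodup_range.map (fun a b hab => (Prod.mk.inj hab).1)
  · exact List.nodup_range.map (fun a b hab => (Prod.mk.inj hab).1)
  · intro a ha b hb hab
    rw [List.mem_map] at ha hb
    obtain ⟨e, _, rfl⟩ := ha
    obtain ⟨e', _, rfl⟩ := hb
    exact Bool.false_ne_true (Prod.mk.inj hab).2

theorem mem_fl (h : Static m vs) (z : ℕ × Bool) : z ∈ vs.flatMap cl ↔ z.1 < m := by
  rw [(flPerm' h).mem_iff]
  rcases z with ⟨e, b⟩
  cases b <;> simp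

theorem cpairs_fst {I : Type} (l : List I) : (cpairs l).map Prod.fst = l :=
  List.map_fst_zip (by simp)

theorem cpairs_snd {I : Type} (l : List I) : (cpairs l).map Prod.snd = l.rotate 1 :=
  List.map_snd_zip (by simp)

/-- all pairs -/
def prs (vs : List (List ℕ × List ℕ)) : List ((ℕ × Bool) × (ℕ × Bool)) :=
  vs.flatMap fun v => cpairs (cl v)

theorem prs_fst (vs : List (List ℕ × List ℕ)) : (prs vs).map Prod.fst = vs.flatMap cl := by
  unfold prs
  rw [List.map_flatMap]
  congr 1
  funext v
  exact cpairs_fst _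

theorem prs_snd : ∀ vs : List (List ℕ × List ℕ), ((prs vs).map Prod.snd).Perm (vs.flatMap cl)
  | [] => by simp [prs]
  | v :: vs => by
    have ih := prs_snd vs
    unfold prs at ih ⊢
    rw [List.flatMap_cons, List.map_append, List.flatMap_cons, cpairs_snd]
    exact (List.rotate_perm _ _).append ih

theorem mem_prs (vs : List (List ℕ × List ℕ)) (p : (ℕ × Bool) × (ℕ × Bool)) :
    p ∈ prs vs ↔ ∃ v ∈ vs, p ∈ cpairs (cl v) := by
  unfold prs
  rw [List.mem_flatMap]

theorem nm_injective {m : ℕ} : Function.Injective (nm : Dart (Fin m) → ℕ × Bool) := by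
  rintro ⟨a, b⟩ ⟨a', b'⟩ h
  have h1 := Prod.mk.inj h
  exact Prod.ext (Fin.ext h1.1) h1.2

theorem exi : ExiStmt := by
  intro m vs h
  have hf : ∀ x : Dart (Fin m), ∃ y : Dart (Fin m), (nm x, nm y) ∈ prs vs := by
    intro x
    have hx : nm x ∈ (prs vs).map Prod.fst := by
      rw [prs_fst, mem_fl h]
      exact x.1.2
    rw [List.mem_map] at hx
    obtain ⟨p, hp, hpx⟩ := hx
    have hy : p.2 ∈ (prs vs).map Prod.snd := List.mem_map_of_mem hp
    rw [(prs_snd vs).mem_iff, mem_fl h] at hy
    refine ⟨(⟨p.2.1, hy⟩, p.2.2), ?_⟩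
    have : (nm x, nm ((⟨p.2.1, hy⟩ : Fin m), p.2.2)) = p := by
      rw [← hpx]
      rfl
    rw [this]
    exact hp
  choose f hf using hf
  have hfst : ∀ p ∈ prs vs, ∀ q ∈ prs vs, p.1 = q.1 → p = q := by
    intro p hp q hq hpq
    refine List.inj_on_of_nodup_map (f := Prod.fst) ?_ hp hq hpq
    rw [prs_fst]
    exact nodup_fl h
  have hsnd : ∀ p ∈ prs vs, ∀ q ∈ prs vs, p.2 = q.2 → p = q := by
    intro p hp q hq hpq
    refine List.inj_on_of_nodup_map (f := Prod.snd) ?_ hp hq hpq
    rw [(prs_snd vs).nodup_iff]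
    exact nodup_fl h
  have hinj : Function.Injective f := by
    intro x y hxy
    have h1 := hsnd _ (hf x) _ (hf y) (by rw [hxy])
    exact nm_injective (Prod.mk.inj h1).1
  refine ⟨Equiv.ofBijective f (Finite.injective_iff_bijective.1 hinj), ?_⟩
  intro x y
  rw [Equiv.ofBijective_apply, ← mem_prs]
  constructor
  · rintro rfl
    exact hf x
  · intro hxy
    have h1 := hfst _ (hf x) _ hxy rfl
    exact nm_injective (Prod.mk.inj h1).2

end Pool.Agent.HAM.H72
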